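import Pool.Agent.H23.PL.Targets

/-!
# BOX. A box of squares.
-/

set_option autoImplicit false

open Finset Polynomial

namespace Pool.Agent.H23.PL

/-- the product over all choices of a function that does not depend on one choice is a square -/
lemma box_sq_indep {t : ℕ} (l₀ : Fin t) (g : (Fin t → Bool) → ℕ)
    (hg : ∀ ε ε' : Fin t → Bool, (∀ l, l ≠ l₀ → ε l = ε' l) → g ε = g ε') :
    IsSquare (∏ ε, g ε) := by
  classical
  refine ⟨∏ ε ∈ univ.filter (fun ε : Fin t → Bool => ε l₀ = true), g ε, ?_⟩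
  rw [← Finset.prod_filter_mul_prod_filter_not univ (fun ε : Fin t → Bool => ε l₀ = true) g]
  congr 1
  refine Finset.prod_bij' (fun ε _ => Function.update ε l₀ true)
    (fun ε _ => Function.update ε l₀ false) ?_ ?_ ?_ ?_ ?_
  · intro ε _
    simp
  · intro ε _
    simp
  · intro ε hε
    simp only [mem_filter, mem_univ, true_and, Bool.not_eq_true] at hε
    ext l
    by_cases h : l = l₀
    · subst h; simp [hε]
    · simp [h]
  · intro ε hε
    simp only [mem_filter, mem_univ, true_and] at hε
    ext l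
    by_cases h : l = l₀
    · subst h; simp [hε]
    · simp [h]
  · intro ε _
    apply hg
    intro l hl
    simp [hl]

/-- the product over all choices and all subsets is a square -/
lemma box_sq {t : ℕ} (F : Finset (Fin t) → (Fin t → Bool) → ℕ)
    (hF : ∀ (A : Finset (Fin t)) (ε ε' : Fin t → Bool), (∀ l ∈ A, ε l = ε' l) →
      F A ε = F A ε') (hu : ∀ ε, IsSquare (F univ ε)) :
    IsSquare (∏ ε : Fin t → Bool, ∏ A : Finset (Fin t), F A ε) := by
  classical
  rw [Finset.prod_comm]
  refine Finset.prod_induction _ IsSquare (fun _ _ => IsSquare.mul) IsSquare.one ?_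
  intro A _
  by_cases hA : A = univ
  · subst hA
    exact Finset.prod_induction _ IsSquare (fun _ _ => IsSquare.mul) IsSquare.one
      (fun ε _ => hu ε)
  · obtain ⟨l₀, hl₀⟩ : ∃ l₀, l₀ ∉ A := by
      by_contra h
      push Not at h
      exact hA (Finset.eq_univ_iff_forall.2 h)
    refine box_sq_indep l₀ _ fun ε ε' h => hF A ε ε' fun l hl => h l ?_
    rintro rfl
    exact hl₀ hl

/-- the product over the subsets of an image -/
lemma box_powerset_image {t : ℕ} (f : Fin t → ℕ) (hf : Function.Injective f) (G : ℕ → ℝ) :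
    ∏ A ∈ (univ.image f).powerset, G (∏ q ∈ A, q) =
      ∏ A : Finset (Fin t), G (∏ l ∈ A, f l) := by
  classical
  rw [Finset.powerset_image, Finset.prod_image, Finset.powerset_univ]
  · refine Finset.prod_congr rfl fun A _ => ?_
    rw [Finset.prod_image]
    exact fun x _ y _ h => hf h
  · exact fun x _ y _ h => Finset.image_injective hf h

theorem pf_BOX (hFMN : T_FMN) (hCYP : T_CYP) (hCOR : T_COR) : T_BOX := by
  classical
  intro u L hL m t q hm ht hq hlt hbox
  obtain ⟨hdeg, hev, hc0, hck, hroot, hsimple⟩ := hCYP m hm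
  obtain ⟨h, hh⟩ := hev
  obtain ⟨s, rfl⟩ : ∃ s, t = s + 1 := ⟨t - 1, by omega⟩
  have htot : 0 < m.totient := Nat.totient_pos.2 (by omega)
  have hh1 : 1 ≤ h := by omega
  have hh2 : m.totient = 2 * h := by omega
  have hE : m.totient * 2 ^ (s + 1 - 1) = h * 2 ^ (s + 1) := by
    rw [hh2, Nat.add_sub_cancel, pow_succ]; ring
  have hcard : Fintype.card (Fin (s + 1) → Bool) = 2 ^ (s + 1) := by simp
  let e : Fin (2 ^ (s + 1)) ≃ (Fin (s + 1) → Bool) :=
    (Fintype.equivFinOfCardEq hcard).symm
  -- the main product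
  let F : Finset (Fin (s + 1)) → (Fin (s + 1) → Bool) → ℕ :=
    fun A ε => L (m * ∏ l ∈ A, q l (ε l))
  have hsq : IsSquare (∏ ε : Fin (s + 1) → Bool, ∏ A : Finset (Fin (s + 1)), F A ε) := by
    refine box_sq F ?_ ?_
    · intro A ε ε' hA
      show L (m * ∏ l ∈ A, q l (ε l)) = L (m * ∏ l ∈ A, q l (ε' l))
      rw [Finset.prod_congr rfl (fun l hl => by rw [hA l hl])]
    · intro ε
      exact (hbox ε).2
  obtain ⟨Z, hZ⟩ := hsq
  have hterm : ∀ ε : Fin (s + 1) → Bool,
      al ^ (2 * h * ∏ l, q l (ε l)) * aeval ((al⁻¹) ^ (2 * ∏ l, q l (ε l))) (PP m) =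
        ((∏ A : Finset (Fin (s + 1)), F A ε : ℕ) : ℝ) := by
    intro ε
    have hinj := (hbox ε).1
    have h1 := hFMN u L hL m (univ.image fun l => q l (ε l)) hm (by
      intro p hp
      obtain ⟨l, _, rfl⟩ := Finset.mem_image.1 hp
      exact hq l (ε l))
    have h2 : ∏ q' ∈ univ.image (fun l => q l (ε l)), q' = ∏ l, q l (ε l) :=
      Finset.prod_image fun x _ y _ hxy => hinj hxy
    rw [h2, hh2] at h1
    rw [← h1, box_powerset_image _ hinj (fun x => (L (m * x) : ℝ))]
    push_cast
    rfl
  have hprod : ∏ i : Fin (2 ^ (s + 1)), (al ^ (2 * h * ∏ l, q l (e i l)) *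
      aeval ((al⁻¹) ^ (2 * ∏ l, q l (e i l))) (PP m)) = (Z : ℝ) ^ 2 := by
    rw [Finset.prod_congr rfl (fun i _ => hterm (e i)),
      Equiv.prod_comp e (fun ε => ((∏ A : Finset (Fin (s + 1)), F A ε : ℕ) : ℝ)),
      ← Nat.cast_prod, hZ, Nat.cast_mul, sq]
  have hpos : ∀ l b, 0 < q l b := fun l b => (hq l b).1.pos
  have key := hCOR h (2 ^ (s + 1)) (∏ l, q l false)
    ((∏ l, q l true) - (∏ l, q l false)) Z (PP m) (e.symm fun _ => false)
    (fun i => ∏ l, q l (e i l)) hh1 (by rw [pow_succ]; exact ⟨2 ^ s, by ring⟩)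
    (by rw [hdeg, hh2]) hc0 (by rw [← hh2]; exact hck) hroot hsimple
    (fun i => Finset.prod_induction _ Odd (fun _ _ => Odd.mul) odd_one
      (fun l _ => (hq l (e i l)).2.1))
    (by simp) (by
      intro i hi
      have hex : ∃ l, e i l = true := by
        by_contra hcon
        push Not at hcon
        apply hi
        rw [Equiv.eq_symm_apply]
        funext l
        simpa using hcon l
      obtain ⟨l₁, hl₁⟩ := hex
      constructor
      · refine Finset.prod_lt_prod (fun l _ => hpos l false) (fun l _ => ?_)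
          ⟨l₁, mem_univ _, ?_⟩
        · cases e i l
          · exact le_refl _
          · exact (hlt l).le
        · rw [hl₁]; exact hlt l₁
      · have hle : ∏ l, q l (e i l) ≤ ∏ l, q l true := by
          refine Finset.prod_le_prod' fun l _ => ?_
          cases e i l
          · exact (hlt l).le
          · exact le_refl _
        omega) hprod
  rw [hE]
  exact key

end Pool.Agent.H23.PL
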