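import Pool.Agent.H8.PL.Sys

/-!
# Planar graphs and two-variable logic with counting: targets
-/

set_option autoImplicit false

namespace Pool.Agent.H8.PL

open Pool.Agent.H69.Sp Pool.Agent.H69.Mt Pool.Agent.H16.TO

/-! ### S: from spectra to tilings of squares -/

/-- from tilings of rectangles to rows of cells -/
def Z_SA : Prop := ∀ (r : ℕ) (T : Type) (G : (ℕ → Bool) → (ℕ → Bool) → T → Prop)
  (H : ℕ → T → T → Prop) (K K' : ℕ) (t : ℕ → ℕ → Ql r T), 0 < K → 0 < K' →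
    GridF (UC G) HC (VC H) K K' t →
      K = K' ∧ ∃ (cl : ℕ → Cell r T) (s : ℕ → ℕ), CellSys G H K cl s

/-- from rows of cells to tilings of squares -/
def Z_SB : Prop := ∀ (r : ℕ) (T : Type) (G : (ℕ → Bool) → (ℕ → Bool) → T → Prop)
  (H : ℕ → T → T → Prop) (K : ℕ) (cl : ℕ → Cell r T) (s : ℕ → ℕ), 0 < K → CellSys G H K cl s →
    ∃ t : ℕ → ℕ → Ql r T, GridF (UC G) HC (VC H) K K t

/-- spectra are given by tilings of squares -/
def Z_SQ : Prop := ∀ S : Set ℕ, IsSpectrum S → ∃ (r : ℕ) (Q : Type)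
  (U : Bool → Bool → Bool → Bool → Q → Prop) (Hh Vv : Q → Q → Prop), 0 < r ∧ Finite Q ∧
    ∀ W H, 0 < W → 0 < H → ((∃ t, GridF U Hh Vv W H t) ↔ ∃ m ∈ S, W = m ^ r ∧ H = m ^ r)

/-! ### F: planar quadrangulations -/

/-- a planar bipartite graph with minimum degree two and `2 V - 4` edges is connected, and all its
faces have length four -/
def Z_FQ : Prop := ∀ (V : Type) [Finite V] (G : SimpleGraph V), IsPlanar G →
  (∃ p : V → Bool, ∀ a b, G.Adj a b → p a ≠ p b) → (∀ a, 2 ≤ (G.neighborSet a).ncard) →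
    Nat.card G.edgeSet + 4 = 2 * Nat.card V → G.Connected ∧ ∃ σ, Quad G σ

/-- the converse -/
def Z_EC : Prop := ∀ (V : Type) [Finite V] (G : SimpleGraph V), G.Connected →
  Nat.card G.edgeSet + 4 = 2 * Nat.card V → (∃ σ, Quad G σ) → IsPlanar G

/-- the rules determine the degrees -/
def Z_DG : Prop := ∀ (V : Type) [Finite V] (G : SimpleGraph V) (lb : V → Lb), LR G lb →
  (∀ x, (G.neighborSet x).ncard =
    if ((lb x).h = 0 ∨ (lb x).h = 3) ∧ ((lb x).v = 0 ∨ (lb x).v = 3) then 2 else 4) ∧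
    Nat.card G.edgeSet + 4 = 2 * Nat.card V ∧ ∃ p : V → Bool, ∀ a b, G.Adj a b → p a ≠ p b

/-- the corners of a face -/
def Z_FC : Prop := ∀ (V : Type) (G : SimpleGraph V) (σ : Equiv.Perm G.Dart), Quad G σ →
  ∀ x a b, Cs G σ x a b → ∃ w, Cs G σ b x w ∧ Cs G σ w b a ∧ Cs G σ a w x

/-- the rotation around a vertex of degree two or four -/
def Z_NB : Prop := ∀ (V : Type) (G : SimpleGraph V) (σ : Equiv.Perm G.Dart), IsRotation G σ →
  (∀ x a b, Cs G σ x a b → G.Adj x a ∧ G.Adj x b) ∧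
  (∀ x a, Cs G σ x a a → ∀ b, G.Adj x b → b = a) ∧
  (∀ x a b, a ≠ b → G.neighborSet x = {a, b} → Cs G σ x a b ∧ Cs G σ x b a) ∧
  ∀ x a b c d, [a, b, c, d].Nodup → G.neighborSet x = {a, b, c, d} → ¬ Cs G σ x a b →
    ¬ Cs G σ x b a → (Cs G σ x a c ∨ Cs G σ x c a) ∧ (Cs G σ x a d ∨ Cs G σ x d a) ∧
      (Cs G σ x b c ∨ Cs G σ x c b) ∧ (Cs G σ x b d ∨ Cs G σ x d b) ∧
      ¬ Cs G σ x c d ∧ ¬ Cs G σ x d c

/-- opposite neighbours do not follow each other -/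
def Z_OP : Prop := ∀ (V : Type) [Finite V] (G : SimpleGraph V) (lb : V → Lb)
  (σ : Equiv.Perm G.Dart), LR G lb → Quad G σ →
    (∀ s x y z, Er G lb s z x → Er G lb s x y → ¬ Cs G σ x y z ∧ ¬ Cs G σ x z y) ∧
    (∀ s x y z, Nr G lb s z x → Nr G lb s x y → ¬ Cs G σ x y z ∧ ¬ Cs G σ x z y) ∧
    (∀ x y z, Er G lb true x y → Er G lb false x z → y ≠ z → ¬ Cs G σ x y z ∧ ¬ Cs G σ x z y) ∧
    (∀ x y z, Er G lb true y x → Er G lb false z x → y ≠ z → ¬ Cs G σ x y z ∧ ¬ Cs G σ x z y) ∧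
    (∀ x y z, Nr G lb true x y → Nr G lb false x z → y ≠ z → ¬ Cs G σ x y z ∧ ¬ Cs G σ x z y) ∧
    (∀ x y z, Nr G lb true y x → Nr G lb false z x → y ≠ z → ¬ Cs G σ x y z ∧ ¬ Cs G σ x z y)

/-- the squares close, except at the first corner -/
def Z_C1 : Prop := ∀ (V : Type) [Finite V] (G : SimpleGraph V) (lb : V → Lb)
  (σ : Equiv.Perm G.Dart), LR G lb → Quad G σ → ∀ s x y z, ¬ ((lb x).h = 0 ∧ (lb x).v = 0) →
    Er G lb s x y → Nr G lb s x z → ∃ w, Er G lb s z w ∧ Nr G lb s y w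

/-- the squares close at the first corner -/
def Z_C2 : Prop := ∀ (V : Type) [Finite V] (G : SimpleGraph V) (lb : V → Lb)
  (σ : Equiv.Perm G.Dart), LR G lb → Quad G σ → ∀ s x y z, ((lb x).h = 0 ∧ (lb x).v = 0) →
    Er G lb s x y → Nr G lb s x z → ∃ w, Er G lb s z w ∧ Nr G lb s y w

/-- the development of a grid: partial injections `E`, `N` which commute -/
def Z_GR : Prop := ∀ (V : Type) [Finite V] (M : V → Prop) (E N : V → V → Prop)
  (L R B T : V → Prop) (o : V),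
  (∀ x y, E x y → M x ∧ M y ∧ ¬ R x ∧ ¬ L y ∧ (B x ↔ B y) ∧ (T x ↔ T y)) →
  (∀ x y, N x y → M x ∧ M y ∧ ¬ T x ∧ ¬ B y ∧ (L x ↔ L y) ∧ (R x ↔ R y)) →
  (∀ x y y', E x y → E x y' → y = y') → (∀ x x' y, E x y → E x' y → x = x') →
  (∀ x y y', N x y → N x y' → y = y') → (∀ x x' y, N x y → N x' y → x = x') →
  (∀ x, M x → ¬ R x → ∃ y, E x y) → (∀ x, M x → ¬ T x → ∃ y, N x y) → M o → L o → B o →
  (∀ x y z, E x y → N x z → ∃ w, E z w ∧ N y w) →
    ∃ (W H : ℕ) (g : ℕ → ℕ → V), 0 < W ∧ 0 < H ∧ g 0 0 = o ∧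
      (∀ x y, x + 1 < W → y < H → E (g x y) (g (x + 1) y)) ∧
      (∀ x y, x < W → y + 1 < H → N (g x y) (g x (y + 1))) ∧
      (∀ x < W, ∀ y < H, M (g x y) ∧ (L (g x y) ↔ x = 0) ∧ (R (g x y) ↔ x + 1 = W) ∧
        (B (g x y) ↔ y = 0) ∧ (T (g x y) ↔ y + 1 = H)) ∧
      ∀ x < W, ∀ y < H, ∀ x' < W, ∀ y' < H, g x y = g x' y' → x = x' ∧ y = y'

/-- the development of both sheets -/
def Z_DV : Prop := ∀ (V : Type) [Finite V] (G : SimpleGraph V) (lb : V → Lb), LR G lb →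
  G.Connected →
  (∀ s x y z, Er G lb s x y → Nr G lb s x z → ∃ w, Er G lb s z w ∧ Nr G lb s y w) →
    ∃ (W H : ℕ) (g : Bool → ℕ → ℕ → V), Dev G lb W H g

/-- the number of the vertices -/
def Z_CT : Prop := ∀ (V : Type) [Finite V] (G : SimpleGraph V) (lb : V → Lb) (W H : ℕ)
  (g : Bool → ℕ → ℕ → V), Dev G lb W H g → Nat.card V + 2 * W + 2 * H = 2 * W * H + 4

/-- from planar models to tilings -/
def Z_MO : Prop := ∀ (Q : Type) (U : Bool → Bool → Bool → Bool → Q → Prop) (Hh Vv : Q → Q → Prop)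
  (V : Type) [Finite V] (G : SimpleGraph V) (lb : V → Lb) (ti : V → Q), IsPlanar G →
    Rule U Hh Vv G lb ti → ∃ W H, 4 ≤ W ∧ 4 ≤ H ∧ Nat.card V + 2 * W + 2 * H = 2 * W * H + 4 ∧
      ∃ t, GridF U Hh Vv W H t

/-! ### P: the pillowcase -/

/-- a rotation from a covering of the darts -/
def Z_TF : Prop := ∀ (V : Type) [Finite V] (G : SimpleGraph V) (D : Type) (π : D → G.Dart)
  (ρ rv : D → D), Function.Surjective π → (∀ d, π (rv d) = (π d).symm) →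
  (∀ d d', π d = π d' → π (ρ d) = π (ρ d')) → (∀ d, (π (ρ d)).fst = (π d).fst) →
  (∀ d d', (π d).fst = (π d').fst → ∃ k : ℕ, π (ρ^[k] d) = π d') →
  (∀ d, π ((fun d => ρ (rv d))^[4] d) = π d) → ∃ σ, Quad G σ

/-- the folding map: bounds and fibres -/
def Z_FA : Prop := ∀ W H : ℕ, 4 ≤ W → 4 ≤ H →
  (∀ p, tri W p.1 < W ∧ tri H p.2 < H ∧ ((fold0 W H p).1 = false →
    0 < tri W p.1 ∧ tri W p.1 + 1 < W ∧ 0 < tri H p.2 ∧ tri H p.2 + 1 < H)) ∧
  (∀ p q, fold0 W H p = fold0 W H q ↔ Cg W H p q ∨ Cg W H p (-q)) ∧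
  ∀ q : PV W H, ∃ p, fold0 W H p = q.1

/-- the folding map: neighbours -/
def Z_FN : Prop := ∀ W H : ℕ, 4 ≤ W → 4 ≤ H → ∀ (p : ℤ × ℤ) (a b : PV W H),
  fold0 W H p = a.1 → ((PG W H).Adj a b ↔ ∃ k, fold0 W H (p + dir k) = b.1)

/-- the folding map: the four neighbours of a point -/
def Z_FD : Prop := ∀ W H : ℕ, 4 ≤ W → 4 ≤ H → ∀ (p : ℤ × ℤ) (k k' : ZMod 4),
  fold0 W H (p + dir k) = fold0 W H (p + dir k') → k = k' ∨ (k' = k + 2 ∧ Cg W H p (-p))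

/-- the rotation of the pillowcase -/
def Z_PR : Prop := ∀ W H : ℕ, 4 ≤ W → 4 ≤ H → ∃ σ, Quad (PG W H) σ

/-- the pillowcase satisfies the rules -/
def Z_PL : Prop := ∀ W H : ℕ, 4 ≤ W → 4 ≤ H → LR (PG W H) (plb W H)

/-- the pillowcase is finite and connected; the number of the vertices -/
def Z_PN : Prop := ∀ W H : ℕ, 4 ≤ W → 4 ≤ H → Finite (PV W H) ∧ (PG W H).Connected ∧
  Nat.card (PV W H) + 2 * W + 2 * H = 2 * W * H + 4

/-- planarity and the rules are invariant -/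
def Z_IS : Prop := ∀ (V V' : Type) (e : V ≃ V') (G : SimpleGraph V) (G' : SimpleGraph V'),
  (∀ a b, G.Adj a b ↔ G'.Adj (e a) (e b)) → (IsPlanar G → IsPlanar G') ∧
    ∀ (Q : Type) (U : Bool → Bool → Bool → Bool → Q → Prop) (Hh Vv : Q → Q → Prop) (lb : V' → Lb)
      (ti : V' → Q), Rule U Hh Vv G (fun a => lb (e a)) (fun a => ti (e a)) → Rule U Hh Vv G' lb ti

/-- from tilings to planar models -/
def Z_MP : Prop := ∀ (Q : Type) (U : Bool → Bool → Bool → Bool → Q → Prop) (Hh Vv : Q → Q → Prop)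
  (W H n : ℕ), 4 ≤ W → 4 ≤ H → n + 2 * W + 2 * H = 2 * W * H + 4 → (∃ t, GridF U Hh Vv W H t) →
    ∃ (G : SimpleGraph (Fin n)) (lb : Fin n → Lb) (ti : Fin n → Q), IsPlanar G ∧
      Rule U Hh Vv G lb ti

/-! ### D: definability -/

/-- the axioms are definable -/
def Z_D1 : Prop := ∀ (Q : Type) [Finite Q] (U : Bool → Bool → Bool → Bool → Q → Prop)
  (Hh Vv : Q → Q → Prop) (enc : Lb × Q → ℕ), Function.Injective enc →
    CD (fun n P R _ _ => AxP U Hh Vv enc n P (R 0))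

/-- the axioms define the labelled planar graphs which satisfy the rules -/
def Z_D2 : Prop := ∀ (Q : Type) [Finite Q] (U : Bool → Bool → Bool → Bool → Q → Prop)
  (Hh Vv : Q → Q → Prop), ∃ φ : C2, ∀ n, n ∈ specP φ ↔ 0 < n ∧
    ∃ (G : SimpleGraph (Fin n)) (lb : Fin n → Lb) (ti : Fin n → Q), IsPlanar G ∧
      Rule U Hh Vv G lb ti

/-- the formulas of the spectra -/
def Z_P1 : Prop := ∀ S, IsSpectrum S → ∃ (φ : C2) (r : ℕ), 0 < r ∧
  ∀ n, 4 ≤ n → (n ∈ S ↔ 2 * (n ^ r - 1) ^ 2 + 2 ∈ specP φ)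

/-! ### E: the spectra of planar graphs are spectra -/

/-- from planar graphs to certificates -/
def Z_Q1 : Prop := ∀ (n : ℕ) (A : ℕ → ℕ → Prop) (hs : ∀ a b, A a b → A b a) (hi : ∀ a, ¬ A a a),
  IsPlanar (gr n A hs hi) → ∃ (pos fid : ℕ → ℕ → ℕ) (rt : ℕ → Prop) (rk : ℕ → ℕ),
    (∀ a b, pos a b ≤ n) ∧ (∀ a b, fid a b ≤ n * n) ∧ (∀ a, rk a ≤ n) ∧ PlC n A pos fid rt rk

/-- from certificates to planar graphs -/
def Z_Q2 : Prop := ∀ (n : ℕ) (A : ℕ → ℕ → Prop) (hs : ∀ a b, A a b → A b a) (hi : ∀ a, ¬ A a a)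
  (pos fid : ℕ → ℕ → ℕ) (rt : ℕ → Prop) (rk : ℕ → ℕ), PlC n A pos fid rt rk →
    IsPlanar (gr n A hs hi)

/-- bounds for the number of the elements of a definable set -/
def Z_NC : Prop := ∀ (P : Pd) (x y : ℕ), FD P →
  ED (fun N E v => {a | a < N ∧ P N E (Function.update v x a)}.ncard ≤ v y) ∧
  ED (fun N E v => v y ≤ {a | a < N ∧ P N E (Function.update v x a)}.ncard)

/-- the existence of a certificate is definable; adjacency is `E 1` -/
def Z_PD : Prop := ED (fun N E v => 2 * (v 1 * v 1) + 4 * v 1 + 4 < N ∧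
  ∃ (pos fid : ℕ → ℕ → ℕ) (rt : ℕ → Prop) (rk : ℕ → ℕ), (∀ a b, pos a b ≤ v 1) ∧
    (∀ a b, fid a b ≤ v 1 * v 1) ∧ (∀ a, rk a ≤ v 1) ∧
      PlC (v 1) (fun a b => E 1 [a, b]) pos fid rt rk)

/-- satisfaction in an initial segment of the universe is definable; adjacency is `E 1`, the unary
relations are `E 0`, `E 2`, … -/
def Z_SR : Prop := ∀ φ : C2, FD (fun N E v => φ.SatN (v 2) (fun i a => E (2 * i) [a])
  (fun _ a b => E 1 [a, b]) (fun w => if w then v 1 else v 0))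

/-- the spectra of planar graphs are spectra -/
def Z_SP : Prop := ∀ φ : C2, IsSpectrum (specP φ)

/-- pull-back -/
def Z_PB : Prop := ∀ X : Set ℕ, IsSpectrum X → ∀ r : ℕ, 0 < r →
  IsSpectrum {n | 4 ≤ n ∧ 2 * (n ^ r - 1) ^ 2 + 2 ∈ X}

/-- the equivalence -/
def Z_P2 : Prop := (∀ S, IsSpectrum S → IsSpectrum (posCompl S)) ↔
  ∀ φ : C2, IsSpectrum (posCompl (specP φ))

end Pool.Agent.H8.PL
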