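import Pool.Agent.H8.PL.Targets

/-!
# From planar models to tilings
-/

set_option autoImplicit false

namespace Pool.Agent.H8.PL

theorem hty_zero {W x : ℕ} : hty W x = 0 ↔ x = 0 := by
  unfold hty
  split_ifs with h1 h2 h3
  · exact iff_of_true rfl h1
  · exact iff_of_false (by decide) h1
  · exact iff_of_false (by decide) h1
  · exact iff_of_false (by decide) h1

theorem hty_three {W x : ℕ} (hW : 4 ≤ W) : hty W x = 3 ↔ x + 1 = W := by
  unfold hty
  split_ifs with h1 h2 h3
  · exact iff_of_false (by decide) (by omega)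
  · exact iff_of_true rfl h2
  · exact iff_of_false (by decide) h2
  · exact iff_of_false (by decide) h2

theorem pf_mo (hDG : Z_DG) (hFQ : Z_FQ) (hC1 : Z_C1) (hC2 : Z_C2) (hDV : Z_DV) (hCT : Z_CT) :
    Z_MO := by
  intro Q U Hh Vv V _ G lb ti hP hR
  obtain ⟨h1, h2, h3⟩ := hDG V G lb hR.lr
  obtain ⟨hcon, σ, hσ⟩ := hFQ V G hP h3 (fun a => by rw [h1 a]; split_ifs <;> omega) h2
  obtain ⟨W, H, g, hg⟩ := hDV V G lb hR.lr hcon (fun s x y z hxy hxz => by
    by_cases hx : (lb x).h = 0 ∧ (lb x).v = 0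
    · exact hC2 V G lb σ hR.lr hσ s x y z hx hxy hxz
    · exact hC1 V G lb σ hR.lr hσ s x y z hx hxy hxz)
  refine ⟨W, H, hg.w, hg.h, hCT V G lb W H g hg, fun x y => ti (g true x y), ?_, ?_, ?_⟩
  · intro x hx y hy
    have hu := hR.un _ (hg.on true x hx y hy)
    obtain ⟨ht1, ht2⟩ := hg.ty true x hx y hy
    rw [ht1, ht2] at hu
    simpa only [hty_zero, hty_three hg.w, hty_three hg.h] using hu
  · intro x y hx hy
    exact hR.ho _ _ (hg.ea true x y hx hy)
  · intro x y hx hy
    exact hR.ve _ _ (hg.no true x y hx hy)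

end Pool.Agent.H8.PL
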