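import Pool.Agent.H8.PL.QC

/-!
# From planar graphs to certificates
-/

set_option autoImplicit false

namespace Pool.Agent.H8.PL

section
variable {V : Type} {G : SimpleGraph V} {σ : Equiv.Perm G.Dart}

/-- the start of the rotation at the first vertex of a dart -/
noncomputable def sta (d : G.Dart) : G.Dart :=
  (⟨d, rfl⟩ : ∃ e : G.Dart, e.fst = d.fst).choose

theorem sta_fst (d : G.Dart) : (sta d).fst = d.fst :=
  (⟨d, rfl⟩ : ∃ e : G.Dart, e.fst = d.fst).choose_spec

theorem sta_congr {d e : G.Dart} (h : d.fst = e.fst) : sta d = sta e := by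
  have key : ∀ (a b : V) (ha : ∃ e : G.Dart, e.fst = a) (hb : ∃ e : G.Dart, e.fst = b), a = b →
      ha.choose = hb.choose := by
    intro a b ha hb hab
    subst hab
    rfl
  exact key _ _ _ _ h

theorem pow_fst (hσ : IsRotation G σ) (k : ℕ) (d : G.Dart) : ((σ ^ k) d).fst = d.fst := by
  induction k with
  | zero => rfl
  | succ k ih => rw [pow_succ', Equiv.Perm.mul_apply, hσ.fst, ih]

theorem pl_ex [Finite G.Dart] (hσ : IsRotation G σ) (d : G.Dart) : ∃ k : ℕ, (σ ^ k) (sta d) = d :=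
  (hσ.cyc _ _ (sta_fst d)).exists_nat_pow_eq

open Classical in
/-- the place of a dart in the rotation -/
noncomputable def plc [Finite G.Dart] (hσ : IsRotation G σ) (d : G.Dart) : ℕ :=
  Nat.find (pl_ex hσ d)

variable [Finite G.Dart] (hσ : IsRotation G σ)

theorem plc_spec (d : G.Dart) : (σ ^ plc hσ d) (sta d) = d := by
  classical
  exact Nat.find_spec (pl_ex hσ d)

theorem plc_min (d : G.Dart) {k : ℕ} (hk : (σ ^ k) (sta d) = d) : plc hσ d ≤ k := by
  classical
  exact Nat.find_min' (pl_ex hσ d) hk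

theorem plc_eq (d : G.Dart) {i j : ℕ} (hi : i ≤ plc hσ d) (hj : j ≤ plc hσ d)
    (h : (σ ^ i) (sta d) = (σ ^ j) (sta d)) : i = j := by
  have key : ∀ i j : ℕ, i < j → j ≤ plc hσ d → (σ ^ i) (sta d) = (σ ^ j) (sta d) → False := by
    intro i j hij hj h
    have h1 : (σ ^ (plc hσ d - j + i)) (sta d) = d := by
      rw [pow_add, Equiv.Perm.mul_apply, h, ← Equiv.Perm.mul_apply, ← pow_add,
        show plc hσ d - j + j = plc hσ d by omega]
      exact plc_spec hσ d
    have := plc_min hσ d h1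
    omega
  rcases Nat.lt_trichotomy i j with h1 | h1 | h1
  · exact (key i j h1 hj h).elim
  · exact h1
  · exact (key j i h1 hi h.symm).elim

theorem plc_pow (d : G.Dart) {i : ℕ} (hi : i ≤ plc hσ d) :
    plc hσ ((σ ^ i) (sta d)) = i := by
  have h1 : sta ((σ ^ i) (sta d)) = sta d := sta_congr (by rw [pow_fst hσ, sta_fst])
  have h2 := plc_spec hσ ((σ ^ i) (sta d))
  rw [h1] at h2
  have h3 := plc_min hσ ((σ ^ i) (sta d)) (k := i) (by rw [h1])
  exact plc_eq hσ d (h3.trans hi) hi h2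

theorem plc_inj {d e : G.Dart} (h1 : d.fst = e.fst) (h2 : plc hσ d = plc hσ e) : d = e := by
  rw [← plc_spec hσ d, ← plc_spec hσ e, h2, sta_congr h1]

theorem plc_next (d e : G.Dart) (h : d.fst = e.fst)
    (h1 : plc hσ e = plc hσ d + 1 ∨ (plc hσ e = 0 ∧ ∀ e' : G.Dart, e'.fst = d.fst →
      plc hσ e' ≤ plc hσ d)) : σ d = e := by
  have hs' : sta e = sta d := sta_congr h.symm
  rcases h1 with h1 | ⟨h1, h2⟩
  · rw [← plc_spec hσ e, h1, hs', pow_succ', Equiv.Perm.mul_apply, plc_spec hσ d]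
  · have h3 := h2 (σ d) (hσ.fst d)
    have h4 : sta (σ d) = sta d := sta_congr (hσ.fst d)
    have h5 : (σ ^ (plc hσ d + 1)) (sta d) = σ d := by
      rw [pow_succ', Equiv.Perm.mul_apply, plc_spec hσ d]
    have h6 := plc_spec hσ (σ d)
    rw [h4] at h6
    rcases Nat.eq_zero_or_pos (plc hσ (σ d)) with h7 | h7
    · exact plc_inj hσ ((hσ.fst d).trans h) (h7.trans h1.symm)
    · obtain ⟨j, hj⟩ : ∃ j, plc hσ (σ d) = j + 1 := ⟨plc hσ (σ d) - 1, by omega⟩
      rw [hj, pow_succ', Equiv.Perm.mul_apply] at h6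
      have h8 := σ.injective h6
      have := plc_min hσ d h8
      omega

theorem plc_lt [Finite V] (d : G.Dart) : plc hσ d < Nat.card V := by
  have h1 : Nat.card (Fin (plc hσ d + 1)) ≤ Nat.card V := by
    refine Nat.card_le_card_of_injective (fun i => ((σ ^ i.1) (sta d)).snd) ?_
    intro i j hij
    have h2 : (σ ^ i.1) (sta d) = (σ ^ j.1) (sta d) :=
      SimpleGraph.Dart.ext _ _ (Prod.ext (by
        change ((σ ^ i.1) (sta d)).fst = ((σ ^ j.1) (sta d)).fst
        rw [pow_fst hσ, pow_fst hσ]) hij)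
    exact Fin.ext (plc_eq hσ d (by have := i.2; omega) (by have := j.2; omega) h2)
  rw [Nat.card_fin] at h1
  omega

end

open Classical in
theorem pf_q1 : Z_Q1 := by
  intro n A hs hi ⟨σ, hσ, hco⟩
  have hfin : Finite (gr n A hs hi).Dart := finite_dart'
  set Qt := Quotient (Equiv.Perm.SameCycle.setoid (facePerm (gr n A hs hi) σ)) with hQt
  have hfq : Finite Qt := Quotient.finite _
  let e : Qt ≃ Fin (Nat.card Qt) := Finite.equivFin Qt
  let pos : ℕ → ℕ → ℕ := fun a b => if h : a < n ∧ b < n ∧ A a b then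
    plc hσ (⟨(⟨a, h.1⟩, ⟨b, h.2.1⟩), h.2.2⟩ : (gr n A hs hi).Dart) else 0
  let fid : ℕ → ℕ → ℕ := fun a b => if h : a < n ∧ b < n ∧ A a b then
    (e (Quotient.mk _ (⟨(⟨a, h.1⟩, ⟨b, h.2.1⟩), h.2.2⟩ : (gr n A hs hi).Dart))).1 else 0
  let ro : Fin n → Fin n := fun a => ((gr n A hs hi).connectedComponentMk a).out
  have hro : ∀ a, (gr n A hs hi).Reachable a (ro a) := fun a =>
    SimpleGraph.ConnectedComponent.exact (Quot.out_eq ((gr n A hs hi).connectedComponentMk a)).symm
  have hpos : ∀ (d : (gr n A hs hi).Dart), pos d.fst d.snd = plc hσ d := fun d =>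
    dif_pos ⟨d.fst.2, d.snd.2, d.adj⟩
  have hfid : ∀ (d : (gr n A hs hi).Dart), fid d.fst d.snd = (e (Quotient.mk _ d)).1 := fun d =>
    dif_pos ⟨d.fst.2, d.snd.2, d.adj⟩
  have hcq : Nat.card Qt ≤ n * n := by
    have h1 : Nat.card Qt ≤ Nat.card (gr n A hs hi).Dart :=
      Nat.card_le_card_of_surjective (Quotient.mk _) Quotient.mk_surjective
    have h2 : Nat.card (gr n A hs hi).Dart ≤ Nat.card (Fin n × Fin n) :=
      Nat.card_le_card_of_injective (fun d : (gr n A hs hi).Dart => d.toProd)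
        SimpleGraph.Dart.toProd_injective
    rw [Nat.card_prod, Nat.card_fin] at h2
    omega
  let rk : ℕ → ℕ := fun a => if h : a < n then (gr n A hs hi).dist ⟨a, h⟩ (ro ⟨a, h⟩) else 0
  have hrk : ∀ a : Fin n, rk a = (gr n A hs hi).dist a (ro a) := fun a => dif_pos a.2
  have hst : ∀ (u v : Fin n) (p : (gr n A hs hi).Walk u v), p.length = (gr n A hs hi).dist u v →
      u ≠ v → ∃ w, (gr n A hs hi).Adj u w ∧ (gr n A hs hi).dist w v < (gr n A hs hi).dist u v := by
    intro u v p hp huv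
    cases p with
    | nil => exact absurd rfl huv
    | cons h1 p =>
      rename_i w
      refine ⟨w, h1, ?_⟩
      have h2 := SimpleGraph.dist_le p
      rw [← hp, SimpleGraph.Walk.length_cons]
      omega
  refine ⟨pos, fid, fun a => ∃ h : a < n, ro ⟨a, h⟩ = ⟨a, h⟩, rk, ?_, ?_, ?_, ?_, ?_, ?_, ?_, ?_⟩
  · intro a b
    by_cases h : a < n ∧ b < n ∧ A a b
    · have h1 := plc_lt hσ (⟨(⟨a, h.1⟩, ⟨b, h.2.1⟩), h.2.2⟩ : (gr n A hs hi).Dart)
      rw [Nat.card_fin, ← hpos] at h1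
      exact h1.le
    · have : pos a b = 0 := dif_neg h
      omega
  · intro a b
    by_cases h : a < n ∧ b < n ∧ A a b
    · have h1 := hfid (⟨(⟨a, h.1⟩, ⟨b, h.2.1⟩), h.2.2⟩ : (gr n A hs hi).Dart)
      have h2 := (e (Quotient.mk _ (⟨(⟨a, h.1⟩, ⟨b, h.2.1⟩), h.2.2⟩ : (gr n A hs hi).Dart))).2
      rw [← h1] at h2
      exact (h2.le).trans hcq
    · have : fid a b = 0 := dif_neg h
      omega
  · intro a
    by_cases h : a < n
    · obtain ⟨p, hp, h1⟩ := (hro ⟨a, h⟩).exists_path_of_dist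
      have h2 := hp.length_lt
      rw [h1, Fintype.card_fin, ← hrk] at h2
      exact h2.le
    · have : rk a = 0 := dif_neg h
      omega
  · -- pi
    intro a ha b hb b' hb' hab hab' h
    have h1 := hpos (⟨(⟨a, ha⟩, ⟨b, hb⟩), hab⟩ : (gr n A hs hi).Dart)
    have h2 := hpos (⟨(⟨a, ha⟩, ⟨b', hb'⟩), hab'⟩ : (gr n A hs hi).Dart)
    have h3 := plc_inj hσ (d := (⟨(⟨a, ha⟩, ⟨b, hb⟩), hab⟩ : (gr n A hs hi).Dart))
      (e := (⟨(⟨a, ha⟩, ⟨b', hb'⟩), hab'⟩ : (gr n A hs hi).Dart)) rfl (by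
        rw [← h1, ← h2]; exact h)
    have h4 := congrArg (fun d => (d.snd).1) h3
    exact h4
  · -- ps
    intro a ha b hb hab h
    set d : (gr n A hs hi).Dart := ⟨(⟨a, ha⟩, ⟨b, hb⟩), hab⟩ with hd
    have h1 : pos a b = plc hσ d := hpos d
    obtain ⟨k, hk⟩ : ∃ k, plc hσ d = k + 1 := ⟨plc hσ d - 1, by omega⟩
    set d' := (σ ^ k) (sta d) with hd'
    have h2 : plc hσ d' = k := plc_pow hσ d (by omega)
    have h3 : d'.fst = ⟨a, ha⟩ := by rw [hd', pow_fst hσ, sta_fst]
    have h5 := hpos d'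
    rw [h3] at h5
    refine ⟨d'.snd.1, d'.snd.2, ?_, ?_⟩
    · have := d'.adj
      rw [h3] at this
      exact this
    · change pos a d'.snd.1 = _ at h5
      omega
  · -- fi
    intro a ha b hb c hc ⟨hab, hac, h⟩
    set d : (gr n A hs hi).Dart := ⟨(⟨a, ha⟩, ⟨b, hb⟩), hab⟩ with hd
    set d' : (gr n A hs hi).Dart := ⟨(⟨a, ha⟩, ⟨c, hc⟩), hac⟩ with hd'
    have h1 : pos a b = plc hσ d := hpos d
    have h2 : pos a c = plc hσ d' := hpos d'
    have h3 : σ d = d' := by
      refine plc_next hσ d d' rfl ?_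
      rcases h with h | ⟨h, h'⟩
      · left; omega
      · right
        refine ⟨by omega, fun e' he' => ?_⟩
        have h4 := h' e'.snd.1 e'.snd.2 (by
          have := e'.adj
          rw [he'] at this
          exact this)
        have h5 := hpos e'
        rw [he'] at h5
        change pos a e'.snd.1 = _ at h5
        omega
    have h4 : fid b a = (e (Quotient.mk _ d.symm)).1 := hfid d.symm
    have h5 : fid a c = (e (Quotient.mk _ d')).1 := hfid d'
    rw [h4, h5]
    congr 2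
    refine Quotient.sound ?_
    change (facePerm (gr n A hs hi) σ).SameCycle d.symm d'
    refine ⟨1, ?_⟩
    rw [zpow_one]
    exact h3
  · -- ro
    intro a ha hb
    by_cases hr : ro ⟨a, ha⟩ = ⟨a, ha⟩
    · exact Or.inl ⟨ha, hr⟩
    · right
      obtain ⟨p, hp⟩ := (hro ⟨a, ha⟩).exists_walk_length_eq_dist
      obtain ⟨w, h1, h2⟩ := hst _ _ p hp (fun h => hr h.symm)
      have h3 : ro w = ro ⟨a, ha⟩ := by
        have h4 : (gr n A hs hi).connectedComponentMk w =
            (gr n A hs hi).connectedComponentMk ⟨a, ha⟩ :=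
          SimpleGraph.ConnectedComponent.sound h1.symm.reachable
        change ((gr n A hs hi).connectedComponentMk w).out = _
        rw [h4]
      refine ⟨w.1, w.2, h1, ?_⟩
      have h5 := hrk w
      have h6 := hrk ⟨a, ha⟩
      rw [h3] at h5
      change rk a = _ at h6
      omega
  · -- co
    have hC : {a | a < n ∧ (∃ h : a < n, ro ⟨a, h⟩ = ⟨a, h⟩) ∧ ∃ b < n, A a b}.ncard ≤
        Nat.card {K : (gr n A hs hi).ConnectedComponent //
          ∃ d : (gr n A hs hi).Dart, (gr n A hs hi).connectedComponentMk d.fst = K} := by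
      refine Nat.card_le_card_of_injective
        (fun p : {a | a < n ∧ (∃ h : a < n, ro ⟨a, h⟩ = ⟨a, h⟩) ∧ ∃ b < n, A a b} =>
          (⟨(gr n A hs hi).connectedComponentMk ⟨p.1, p.2.1⟩, by
            obtain ⟨b, hb, hab⟩ := p.2.2.2
            exact ⟨⟨(⟨p.1, p.2.1⟩, ⟨b, hb⟩), hab⟩, rfl⟩⟩ :
          {K : (gr n A hs hi).ConnectedComponent //
            ∃ d : (gr n A hs hi).Dart, (gr n A hs hi).connectedComponentMk d.fst = K})) ?_
      rintro ⟨a, ha, ⟨h1, h2⟩, h3⟩ ⟨a', ha', ⟨h1', h2'⟩, h3'⟩ h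
      have h4 := congrArg Subtype.val h
      have h5 : ro ⟨a, h1⟩ = ro ⟨a', h1'⟩ := congrArg (fun K => Quot.out K) h4
      rw [h2, h2'] at h5
      exact Subtype.ext (congrArg Fin.val h5)
    have hF : Nat.card Qt ≤ {k | ∃ a < n, ∃ b < n, A a b ∧ fid a b = k}.ncard := by
      have hf : Finite {k | ∃ a < n, ∃ b < n, A a b ∧ fid a b = k} := by
        refine Set.Finite.to_subtype ((Set.finite_le_nat (n * n)).subset ?_)
        rintro k ⟨a, ha, b, hb, hab, rfl⟩
        have h1 := hfid (⟨(⟨a, ha⟩, ⟨b, hb⟩), hab⟩ : (gr n A hs hi).Dart)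
        have h2 := (e (Quotient.mk _ (⟨(⟨a, ha⟩, ⟨b, hb⟩), hab⟩ : (gr n A hs hi).Dart))).2
        rw [← h1] at h2
        exact (h2.le).trans hcq
      refine Nat.card_le_card_of_injective
        (fun q : Qt => (⟨(e q).1, by
          induction q using Quotient.ind with
          | _ d => exact ⟨d.fst, d.fst.2, d.snd, d.snd.2, d.adj, hfid d⟩⟩ :
          {k | ∃ a < n, ∃ b < n, A a b ∧ fid a b = k})) ?_
      intro q q' h
      have h4 := congrArg Subtype.val h
      exact e.injective (Fin.ext h4)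
    rw [ncard_edges (hs := hs) (hi := hi), ncard_verts (hs := hs) (hi := hi)]
    omega

end Pool.Agent.H8.PL
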