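import Pool.Agent.H8.PL.QC

/-!
# From certificates to planar graphs
-/

set_option autoImplicit false

namespace Pool.Agent.H8.PL

section
variable {n : ℕ} {A : ℕ → ℕ → Prop} {pos fid : ℕ → ℕ → ℕ} {rt : ℕ → Prop} {rk : ℕ → ℕ}

theorem plc_init (h : PlC n A pos fid rt rk) {a : ℕ} (ha : a < n) :
    ∀ k b : ℕ, b < n → A a b → pos a b = k → ∀ j ≤ k, ∃ c < n, A a c ∧ pos a c = j := by
  intro k
  induction k with
  | zero =>
    intro b hb hab hk j hj
    exact ⟨b, hb, hab, by omega⟩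
  | succ k ih =>
    intro b hb hab hk j hj
    rcases Nat.lt_or_ge k j with h1 | h1
    · exact ⟨b, hb, hab, by omega⟩
    · obtain ⟨b', hb', hab', h2⟩ := h.ps a ha b hb hab (by omega)
      exact ih b' hb' hab' (by omega) j h1

theorem nx_exists (h : PlC n A pos fid rt rk) {a b : ℕ} (ha : a < n) (hb : b < n) (hab : A a b) :
    ∃ c < n, Nx n A pos a b c := by
  by_cases h1 : ∃ c < n, A a c ∧ pos a c = pos a b + 1
  · obtain ⟨c, hc, hac, h2⟩ := h1
    exact ⟨c, hc, hab, hac, Or.inl h2⟩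
  · obtain ⟨c, hc, hac, h2⟩ := plc_init h ha _ b hb hab rfl 0 (Nat.zero_le _)
    refine ⟨c, hc, hab, hac, Or.inr ⟨h2, fun c' hc' hac' => ?_⟩⟩
    by_contra h3
    exact h1 (plc_init h ha _ c' hc' hac' rfl (pos a b + 1) (by omega))

theorem nx_unique (h : PlC n A pos fid rt rk) {a b c c' : ℕ} (ha : a < n) (hc : c < n)
    (hc' : c' < n) (h1 : Nx n A pos a b c) (h2 : Nx n A pos a b c') : c = c' := by
  obtain ⟨-, hac, h3⟩ := h1
  obtain ⟨-, hac', h4⟩ := h2
  refine h.pi a ha c hc c' hc' hac hac' ?_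
  rcases h3 with h3 | ⟨h3, h5⟩ <;> rcases h4 with h4 | ⟨h4, h6⟩
  · omega
  · have := h6 c hc hac; omega
  · have := h5 c' hc' hac'; omega
  · omega

theorem nx_inj (h : PlC n A pos fid rt rk) {a b b' c : ℕ} (ha : a < n) (hb : b < n)
    (hb' : b' < n) (h1 : Nx n A pos a b c) (h2 : Nx n A pos a b' c) : b = b' := by
  obtain ⟨hab, hac, h3⟩ := h1
  obtain ⟨hab', -, h4⟩ := h2
  refine h.pi a ha b hb b' hb' hab hab' ?_
  rcases h3 with h3 | ⟨h3, h5⟩ <;> rcases h4 with h4 | ⟨h4, h6⟩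
  · omega
  · omega
  · omega
  · have := h5 b' hb' hab'; have := h6 b hb hab; omega

variable {hs : ∀ a b, A a b → A b a} {hi : ∀ a, ¬ A a a}

/-- the next dart -/
noncomputable def nxd (h : PlC n A pos fid rt rk) (d : (gr n A hs hi).Dart) :
    (gr n A hs hi).Dart :=
  ⟨(d.fst, ⟨(nx_exists h d.fst.2 d.snd.2 d.adj).choose,
    (nx_exists h d.fst.2 d.snd.2 d.adj).choose_spec.1⟩),
    (nx_exists h d.fst.2 d.snd.2 d.adj).choose_spec.2.2.1⟩

theorem nxd_spec (h : PlC n A pos fid rt rk) (d : (gr n A hs hi).Dart) :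
    Nx n A pos d.fst d.snd (nxd h d).snd := (nx_exists h d.fst.2 d.snd.2 d.adj).choose_spec.2

theorem nxd_inj (h : PlC n A pos fid rt rk) :
    Function.Injective (nxd h : (gr n A hs hi).Dart → (gr n A hs hi).Dart) := by
  intro d d' hd
  have h1 : d.fst = d'.fst := congrArg (fun x => x.fst) hd
  have h2 : (nxd h d).snd = (nxd h d').snd := congrArg (fun x => x.snd) hd
  have h3 := nxd_spec h d
  have h4 := nxd_spec h d'
  rw [← h2, ← h1] at h4
  have h5 := nx_inj h d.fst.2 d.snd.2 d'.snd.2 h3 h4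
  exact SimpleGraph.Dart.ext _ _ (Prod.ext h1 (Fin.ext h5))

/-- the rotation -/
noncomputable def nxp (h : PlC n A pos fid rt rk) : Equiv.Perm (gr n A hs hi).Dart :=
  Equiv.ofBijective (nxd h) (by
    have := finite_dart' (n := n) (A := A) (hs := hs) (hi := hi)
    exact Finite.injective_iff_bijective.1 (nxd_inj h))

theorem nxp_apply (h : PlC n A pos fid rt rk) (d : (gr n A hs hi).Dart) : nxp h d = nxd h d := rfl

theorem nxp_same (h : PlC n A pos fid rt rk) (a : Fin n) :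
    ∀ (k : ℕ) (d d' : (gr n A hs hi).Dart), d.fst = a → d'.fst = a → pos a d'.snd = 0 →
      pos a d.snd = k → (nxp h).SameCycle d' d := by
  intro k
  induction k with
  | zero =>
    intro d d' h1 h2 h3 h4
    have h5 : d'.snd.1 = d.snd.1 := h.pi a a.2 _ d'.snd.2 _ d.snd.2
      (by have := d'.adj; rw [h2] at this; exact this)
      (by have := d.adj; rw [h1] at this; exact this) (by omega)
    have h6 : d' = d := SimpleGraph.Dart.ext _ _ (Prod.ext (h2.trans h1.symm) (Fin.ext h5))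
    rw [h6]
  | succ k ih =>
    intro d d' h1 h2 h3 h4
    have hd : A a d.snd := by have := d.adj; rw [h1] at this; exact this
    obtain ⟨b, hb, hab, h5⟩ := h.ps a a.2 _ d.snd.2 hd (by omega)
    have h6 := ih ⟨(a, ⟨b, hb⟩), hab⟩ d' rfl h2 h3 (by change pos a b = k; omega)
    have h7 : nxp h (⟨(a, ⟨b, hb⟩), hab⟩ : (gr n A hs hi).Dart) = d := by
      rw [nxp_apply]
      have h8 := nxd_spec h (⟨(a, ⟨b, hb⟩), hab⟩ : (gr n A hs hi).Dart)
      have h9 : Nx n A pos a b d.snd := ⟨hab, hd, Or.inl (by omega)⟩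
      have h10 := nx_unique h a.2 (nxd h (⟨(a, ⟨b, hb⟩), hab⟩ : (gr n A hs hi).Dart)).snd.2
        d.snd.2 h8 h9
      exact SimpleGraph.Dart.ext _ _ (Prod.ext h1.symm (Fin.ext h10))
    rw [← h7]
    exact (Equiv.Perm.sameCycle_apply_right).2 h6

theorem nxp_rot (h : PlC n A pos fid rt rk) : IsRotation (gr n A hs hi) (nxp h) := by
  refine ⟨fun d => rfl, fun d d' hd => ?_⟩
  obtain ⟨c, hc, hac, h0⟩ := plc_init h d.fst.2 _ d.snd.1 d.snd.2 d.adj rfl 0 (Nat.zero_le _)
  have h1 := nxp_same h d.fst _ d ⟨(d.fst, ⟨c, hc⟩), hac⟩ rfl rfl h0 rfl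
  have h2 := nxp_same h d.fst _ d' ⟨(d.fst, ⟨c, hc⟩), hac⟩ hd.symm rfl h0 rfl
  exact h1.symm.trans h2

theorem fid_face (h : PlC n A pos fid rt rk) (d : (gr n A hs hi).Dart) :
    fid (facePerm (gr n A hs hi) (nxp h) d).fst (facePerm (gr n A hs hi) (nxp h) d).snd =
      fid d.fst d.snd := by
  have h1 := nxd_spec h d.symm
  have h2 := h.fi d.symm.fst d.symm.fst.2 d.symm.snd d.symm.snd.2 _ (nxd h d.symm).snd.2 h1
  exact h2.symm

theorem fid_same (h : PlC n A pos fid rt rk) {d d' : (gr n A hs hi).Dart}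
    (hd : (facePerm (gr n A hs hi) (nxp h)).SameCycle d d') :
    fid d.fst d.snd = fid d'.fst d'.snd := by
  obtain ⟨i, hi'⟩ := hd
  have h1 : ∀ (k : ℕ) (d : (gr n A hs hi).Dart),
      fid ((facePerm (gr n A hs hi) (nxp h) ^ k) d).fst
        ((facePerm (gr n A hs hi) (nxp h) ^ k) d).snd = fid d.fst d.snd := by
    intro k
    induction k with
    | zero => intro d; rfl
    | succ k ih =>
      intro d
      rw [pow_succ', Equiv.Perm.mul_apply, fid_face h, ih]
  rcases i with k | k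
  · have := h1 k d
    rw [← hi']
    exact this.symm
  · have := h1 (k + 1) d'
    rw [← hi'] at this ⊢
    rw [zpow_negSucc] at this ⊢
    rw [← Equiv.Perm.mul_apply, mul_inv_cancel, Equiv.Perm.one_apply] at this
    exact this

theorem root_exists (h : PlC n A pos fid rt rk) : ∀ (k : ℕ) (a : Fin n), rk a = k →
    (∃ b < n, A a b) → ∃ r : Fin n, rt r ∧ (∃ b < n, A r b) ∧ (gr n A hs hi).Reachable a r := by
  intro k
  induction k using Nat.strong_induction_on with
  | _ k ih =>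
    intro a hk hb
    rcases h.ro a a.2 hb with h1 | ⟨b, hb', hab, hlt⟩
    · exact ⟨a, h1, hb, SimpleGraph.Reachable.refl _⟩
    · obtain ⟨r, h2, h3, h4⟩ := ih (rk b) (by omega) ⟨b, hb'⟩ rfl ⟨a, a.2, hs _ _ hab⟩
      refine ⟨r, h2, h3, SimpleGraph.Reachable.trans ?_ h4⟩
      exact SimpleGraph.Adj.reachable (show (gr n A hs hi).Adj a ⟨b, hb'⟩ from hab)

theorem pf_q2 : Z_Q2 := by
  intro n A hs hi pos fid rt rk h
  have hfin := finite_dart' (n := n) (A := A) (hs := hs) (hi := hi)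
  refine ⟨nxp h, nxp_rot h, ?_⟩
  have hC : Nat.card {K : (gr n A hs hi).ConnectedComponent //
      ∃ d : (gr n A hs hi).Dart, (gr n A hs hi).connectedComponentMk d.fst = K} ≤
      {a | a < n ∧ rt a ∧ ∃ b < n, A a b}.ncard := by
    have hf : Finite {a | a < n ∧ rt a ∧ ∃ b < n, A a b} :=
      Set.Finite.to_subtype ((Set.finite_lt_nat n).subset fun a ha => ha.1)
    refine Nat.card_le_card_of_surjective
      (fun p : {a | a < n ∧ rt a ∧ ∃ b < n, A a b} =>
        (⟨(gr n A hs hi).connectedComponentMk ⟨p.1, p.2.1⟩, by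
          obtain ⟨b, hb, hab⟩ := p.2.2.2
          exact ⟨⟨(⟨p.1, p.2.1⟩, ⟨b, hb⟩), hab⟩, rfl⟩⟩ :
        {K : (gr n A hs hi).ConnectedComponent //
          ∃ d : (gr n A hs hi).Dart, (gr n A hs hi).connectedComponentMk d.fst = K})) ?_
    rintro ⟨K, d, rfl⟩
    obtain ⟨r, h1, h2, h3⟩ := root_exists (hs := hs) (hi := hi) h _ d.fst rfl
      ⟨d.snd, d.snd.2, d.adj⟩
    exact ⟨⟨r, r.2, h1, h2⟩, Subtype.ext (SimpleGraph.ConnectedComponent.sound h3.symm)⟩
  have hF : {k | ∃ a < n, ∃ b < n, A a b ∧ fid a b = k}.ncard ≤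
      Nat.card (Quotient (Equiv.Perm.SameCycle.setoid (facePerm (gr n A hs hi) (nxp h)))) := by
    refine Nat.card_le_card_of_surjective
      (fun q : Quotient (Equiv.Perm.SameCycle.setoid (facePerm (gr n A hs hi) (nxp h))) =>
        (⟨Quotient.lift (fun d : (gr n A hs hi).Dart => fid d.fst d.snd)
          (fun d d' hd => fid_same h hd) q, by
          induction q using Quotient.ind with
          | _ d => exact ⟨d.fst, d.fst.2, d.snd, d.snd.2, d.adj, rfl⟩⟩ :
          {k | ∃ a < n, ∃ b < n, A a b ∧ fid a b = k})) ?_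
    rintro ⟨k, a, ha, b, hb, hab, rfl⟩
    exact ⟨Quotient.mk _ ⟨(⟨a, ha⟩, ⟨b, hb⟩), hab⟩, rfl⟩
  have hco := h.co
  rw [ncard_edges (hs := hs) (hi := hi), ncard_verts (hs := hs) (hi := hi)] at hco
  omega

end

end Pool.Agent.H8.PL
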