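import Pool.Agent.H8.PL.Targets

/-!
# From tilings of rectangles to rows of cells
-/

set_option autoImplicit false

namespace Pool.Agent.H8.PL

open Pool.Agent.H16.TO

theorem exists_cut (P : ℕ → Prop) (K : ℕ) (h : ∀ k, k + 1 < K → P (k + 1) → P k) :
    ∃ s ≤ K, ∀ k < K, (P k ↔ k < s) := by
  classical
  induction K with
  | zero => exact ⟨0, le_rfl, fun k hk => absurd hk (Nat.not_lt_zero k)⟩
  | succ K ih =>
    obtain ⟨s, hs, h1⟩ := ih fun k hk => h k (by omega)
    by_cases hP : P K
    · have h2 : ∀ j ≤ K, P (K - j) := by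
        intro j
        induction j with
        | zero => intro _; exact hP
        | succ j ih' =>
          intro hj
          refine h _ (by omega) ?_
          have h3 := ih' (by omega)
          rwa [show K - (j + 1) + 1 = K - j by omega]
      refine ⟨K + 1, le_rfl, fun k hk => iff_of_true ?_ hk⟩
      have h3 := h2 (K - k) (by omega)
      rwa [show K - (K - k) = k by omega] at h3
    · refine ⟨s, by omega, fun k hk => ?_⟩
      rcases Nat.lt_or_ge k K with h2 | h2
      · exact h1 k h2
      · have h3 : k = K := by omega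
        subst h3
        exact iff_of_false hP (by omega)

theorem pf_sa : Z_SA := by
  intro r T G H K K' t hK hK' ⟨hU, hH, hV⟩
  set cl : ℕ → Cell r T := fun x => (t x 0).1 with hcl
  have e1 : ∀ x < K, ∀ y, y < K' → (t x y).1 = cl x := by
    intro x hx y
    induction y with
    | zero => intro _; rfl
    | succ y ih =>
      intro hy
      rw [(hV x y hx hy).1]
      exact ih (by omega)
  have e2 : ∀ y, y < K' → ∀ x < K, (t x y).2.1 = if y ≤ x then some (cl (x - y)) else none := by
    intro y
    induction y with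
    | zero =>
      intro hy x hx
      rw [if_pos (Nat.zero_le _)]
      exact (hU x hx 0 hy).2.2.2.1 (decide_eq_true rfl)
    | succ y ih =>
      intro hy x hx
      rw [(hV x y hx hy).2.1]
      rcases Nat.eq_zero_or_pos x with rfl | hx0
      · rw [if_neg (by omega)]
        exact ((hU 0 hx y (by omega)).2.1 (decide_eq_true rfl)).2
      · obtain ⟨x, rfl⟩ : ∃ x', x = x' + 1 := ⟨x - 1, by omega⟩
        rw [(hH x y hx (by omega)).2.1, ih (by omega) x (by omega)]
        by_cases hyx : y ≤ x
        · rw [if_pos hyx, if_pos (by omega), show x + 1 - (y + 1) = x - y by omega]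
        · rw [if_neg hyx, if_neg (by omega)]
  have e3 : ∀ y < K', ∀ x < K, (t x y).2.2.1 = if y < x then some (cl (x - 1 - y)) else none := by
    intro y hy x hx
    rcases Nat.eq_zero_or_pos x with rfl | hx0
    · rw [if_neg (by omega)]
      exact ((hU 0 hx y hy).2.1 (decide_eq_true rfl)).2
    · obtain ⟨x, rfl⟩ : ∃ x', x = x' + 1 := ⟨x - 1, by omega⟩
      rw [(hH x y hx hy).2.1, e2 y hy x (by omega)]
      by_cases hyx : y ≤ x
      · rw [if_pos hyx, if_pos (by omega), show x + 1 - 1 - y = x - y by omega]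
      · rw [if_neg hyx, if_neg (by omega)]
  have e4 : ∀ y < K', ∀ x, x < K → (t x y).2.2.2 = (t 0 y).2.2.2 := by
    intro y hy x
    induction x with
    | zero => intro _; rfl
    | succ x ih =>
      intro hx
      rw [(hH x y hx hy).2.2]
      exact ih (by omega)
  have hKK : K = K' := by
    have h1 := (hU (K - 1) (by omega) (K' - 1) (by omega)).2.2.1 (decide_eq_true (by omega))
    have h2 := h1.2.2.2 (decide_eq_true (by omega))
    rw [e2 _ (by omega) _ (by omega), e3 _ (by omega) _ (by omega)] at h2
    have h3 : K' - 1 ≤ K - 1 := by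
      by_contra h
      exact h2.1 (if_neg h)
    have h4 : ¬ K' - 1 < K - 1 := by
      intro h
      have := h2.2
      rw [if_pos h] at this
      exact Option.some_ne_none _ this
    omega
  subst hKK
  refine ⟨rfl, cl, ?_⟩
  have hmk : ∀ y < K, ∀ x < K, ∀ j, mk (t x y) j = mk (t 0 y) j := by
    intro y hy x hx j
    unfold mk
    rw [e4 y hy x hx]
  have e5 : ∀ y < K, ∀ x < K, ∀ j < r, (mk (t x y) j = true ↔ fl (cl y) 0 j = true) := by
    intro y hy x hx j hj
    have h1 := (hU y hy y hy).2.2.2.2 (by
      rw [e2 y hy y hy, if_pos le_rfl]; exact Option.some_ne_none _) (by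
      rw [e3 y hy y hy, if_neg (lt_irrefl _)]) j hj
    rw [e1 y hy y hy, hmk y hy y hy j] at h1
    rw [hmk y hy x hx j]
    exact h1
  have hstep : ∀ k, k + 1 < K → CellStep (cl k) (cl (k + 1)) := fun k hk => (hH k 0 hk hK).1
  have hcut : ∀ j, ∃ s, j < r → s ≤ K ∧ ∀ k < K, (fl (cl k) 0 j = true ↔ k < s) := by
    intro j
    by_cases hj : j < r
    · obtain ⟨s, hs, h⟩ := exists_cut (fun k => fl (cl k) 0 j = true) K fun k hk h1 =>
        (((hstep k hk).2 j hj).1.1 h1).1
      exact ⟨s, fun _ => ⟨hs, h⟩⟩
    · exact ⟨0, fun h => absurd h hj⟩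
  choose s hs using hcut
  have hfirst : CellFirst (cl 0) := ((hU 0 hK 0 hK).2.1 (decide_eq_true rfl)).1
  have hs0 : ∀ j < r, 0 < s j := fun j hj => ((hs j hj).2 0 hK).1 (hfirst j hj).1
  have hlink : ∀ j < r, ∀ k, k + s j < K → Link H j (cl k) (cl (k + s j)) ∧
      fl (cl k) 1 j = false := by
    intro j hj k hk
    have h0 := hs0 j hj
    obtain ⟨u, hu⟩ : ∃ u, s j = u + 1 := ⟨s j - 1, by omega⟩
    have h1 := (hV (k + s j) u hk (by omega)).2.2 j hj
      ((e5 u (by omega) _ hk j hj).2 (((hs j hj).2 u (by omega)).2 (by omega)))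
      (by
        rw [← Bool.not_eq_true]
        intro h2
        have h3 := ((hs j hj).2 (u + 1) (by omega)).1 ((e5 (u + 1) (by omega) _ hk j hj).1 h2)
        omega)
      (cl k) (by
        rw [e2 (u + 1) (by omega) _ hk, if_pos (by omega), show k + s j - (u + 1) = k by omega])
    rw [e1 _ hk _ (by omega)] at h1
    exact h1
  refine ⟨s, hfirst, ((hU (K - 1) (by omega) 0 hK).2.2.1 (decide_eq_true (by omega))).1,
    fun k hk => (hU k hk 0 hK).1, hstep, fun j hj => hs j hj, fun j hj k hk => ?_,
    fun j hj k hk => (hlink j hj k hk).1⟩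
  constructor
  · intro h1
    by_contra h2
    have h3 := (hlink j hj k (by have := (hs j hj).1; omega)).2
    rw [h1] at h3
    exact Bool.noConfusion h3
  · intro h1
    have h0 := (hs j hj).1
    have h2 := ((hU (K - 1) (by omega) (K - 1 - k) (by omega)).2.2.1
      (decide_eq_true (by omega))).2.1 j hj
      ((e5 (K - 1 - k) (by omega) _ (by omega) j hj).2
        (((hs j hj).2 (K - 1 - k) (by omega)).2 (by omega))) (cl k) (by
        rw [e2 (K - 1 - k) (by omega) _ (by omega), if_pos (by omega),
          show K - 1 - (K - 1 - k) = k by omega])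
    exact h2

end Pool.Agent.H8.PL
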