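import Pool.Agent.H8.PL.EC
import Pool.Agent.H8.PL.MO
import Pool.Agent.H8.PL.Q1
import Pool.Agent.H8.PL.Q2
import Pool.Agent.H8.PL.SA
import Pool.Agent.H1.PL.C1
import Pool.Agent.H93.PL.OP
import Pool.Agent.H93.PL.NB
import Pool.Agent.H81.PL.CT
import Pool.Agent.H94.PL.D1
import Pool.Agent.H64.PL.D2
import Pool.Agent.H64.PL.DG
import Pool.Agent.H94.PL.DV
import Pool.Agent.H26.PL.FA
import Pool.Agent.H26.PL.FD
import Pool.Agent.H26.PL.FN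
import Pool.Agent.H64.PL.FQ
import Pool.Agent.H39.PL.GR
import Pool.Agent.H59.PL.IS
import Pool.Agent.H65.PL.MP
import Pool.Agent.H59.PL.NC
import Pool.Agent.H34.PL.P1
import Pool.Agent.H74.PL.P2
import Pool.Agent.H81.PL.PB
import Pool.Agent.H94.PL.PD
import Pool.Agent.H94.PL.PL
import Pool.Agent.H64.PL.PN
import Pool.Agent.H63.PL.PR
import Pool.Agent.H1.PL.SB
import Pool.Agent.H74.PL.SP
import Pool.Agent.H56.PL.SQ
import Pool.Agent.H96.PL.SR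
import Pool.Agent.H96.PL.TF
import Pool.Agent.H16.TO.AllTwo

/-!
# Planar graphs: all modules put together
-/

set_option autoImplicit false

namespace Pool.Agent.H8.PL

open Pool.Agent

theorem z_sq : Z_SQ :=
  H56.PL.pf_sq pf_sa H1.PL.pf_sb H16.TO.t_gt (H86.TW.pf_ca H16.TO.t_ls H47.TW.pf_mr)
    (H86.TW.pf_cb H69.TW.pf_cy H69.TW.pf_ds H47.TW.pf_mr)

theorem z_op : Z_OP := H93.PL.pf_op H64.PL.pf_dg H93.PL.pf_fc H93.PL.pf_nb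

theorem z_mo : Z_MO :=
  pf_mo H64.PL.pf_dg H64.PL.pf_fq (H1.PL.pf_c1 H64.PL.pf_dg H93.PL.pf_fc H93.PL.pf_nb z_op)
    (H93.PL.pf_c2 H64.PL.pf_dg H93.PL.pf_fc H93.PL.pf_nb z_op) (H94.PL.pf_dv H39.PL.pf_gr)
    H81.PL.pf_ct

theorem z_pr : Z_PR :=
  H63.PL.pf_pr H96.PL.pf_tf H26.PL.pf_FA H26.PL.pf_FN (H26.PL.pf_FD H26.PL.pf_FA)

theorem z_mp : Z_MP :=
  H65.PL.pf_mp pf_ec H64.PL.pf_dg z_pr H94.PL.pf_pl H64.PL.pf_pn H59.PL.pf_IS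

theorem z_p1 : Z_P1 := H34.PL.p1 z_sq (H64.PL.pf_d2 H94.PL.pf_d1) z_mo z_mp

theorem z_sp : Z_SP := H74.PL.pf_sp pf_q1 pf_q2 (H94.PL.pf_pd H59.PL.pf_NC) H96.PL.pf_sr

theorem z_p2 : Z_P2 := H74.PL.pf_p2 z_p1 z_sp H81.PL.pf_pb

end Pool.Agent.H8.PL
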