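import Pool.Agent.H8.PL.Defs
import Pool.Agent.H16.TO.Targets

/-!
# Planar graphs and two-variable logic with counting: auxiliary definitions
-/

set_option autoImplicit false

namespace Pool.Agent.H8.PL

open Pool.Agent.H69.Sp Pool.Agent.H69.Mt Pool.Agent.H16.TO

/-! ### tilings of rectangles -/

/-- `t` is a tiling of the rectangle `W × H`: `U` is the condition for one cell (first column, last
column, first row, last row), `Hh`, `Vv` are the conditions for neighbours -/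
def GridF {Q : Type} (U : Bool → Bool → Bool → Bool → Q → Prop) (Hh Vv : Q → Q → Prop) (W H : ℕ)
    (t : ℕ → ℕ → Q) : Prop :=
  (∀ x < W, ∀ y < H, U (decide (x = 0)) (decide (x + 1 = W)) (decide (y = 0)) (decide (y + 1 = H))
    (t x y)) ∧ (∀ x y, x + 1 < W → y < H → Hh (t x y) (t (x + 1) y)) ∧
    ∀ x y, x < W → y + 1 < H → Vv (t x y) (t x (y + 1))

section
variable {r : ℕ} {T : Type}

/-- tiles for rows of cells: the cell of the column, the shifted cell, the shifted cell of the left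
neighbour, the marks of the row -/
abbrev Ql (r : ℕ) (T : Type) : Type :=
  Cell r T × Option (Cell r T) × Option (Cell r T) × (Fin r → Bool)

/-- the mark `j` -/
def mk (q : Ql r T) (j : ℕ) : Bool := if h : j < r then q.2.2.2 ⟨j, h⟩ else true

/-- the condition for one tile -/
def UC (G : (ℕ → Bool) → (ℕ → Bool) → T → Prop) (z l b u : Bool) (q : Ql r T) : Prop :=
  CellG G q.1 ∧ (z = true → CellFirst q.1 ∧ q.2.2.1 = none) ∧
    (l = true → CellLast q.1 ∧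
      (∀ j < r, mk q j = true → ∀ d, q.2.1 = some d → fl d 1 j = true) ∧
      ((q.2.1 ≠ none ∧ q.2.2.1 = none) ↔ u = true)) ∧
    (b = true → q.2.1 = some q.1) ∧
    (q.2.1 ≠ none → q.2.2.1 = none → ∀ j < r, (mk q j = true ↔ fl q.1 0 j = true))

/-- the condition for horizontal neighbours -/
def HC (q q' : Ql r T) : Prop := CellStep q.1 q'.1 ∧ q'.2.2.1 = q.2.1 ∧ q'.2.2.2 = q.2.2.2

/-- the condition for vertical neighbours -/
def VC (H : ℕ → T → T → Prop) (q q' : Ql r T) : Prop :=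
  q'.1 = q.1 ∧ q'.2.1 = q.2.2.1 ∧ ∀ j < r, mk q j = true → mk q' j = false →
    ∀ d, q'.2.1 = some d → Link H j d q'.1 ∧ fl d 1 j = false

end

/-! ### labels -/

/-- the labels: horizontal type, vertical type (`0` first, `1` second, `2` middle, `3` last), sheet
(used inside only), coordinates modulo 6 -/
structure Lb : Type where
  h : Fin 4
  v : Fin 4
  f : Bool
  i : ZMod 6
  j : ZMod 6
deriving DecidableEq

instance : Finite Lb := by
  refine Finite.of_injective (β := Fin 4 × Fin 4 × Bool × ZMod 6 × ZMod 6)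
    (fun q => (q.h, q.v, q.f, q.i, q.j)) ?_
  rintro ⟨_, _, _, _, _⟩ ⟨_, _, _, _, _⟩ h
  simpa using h

/-- steps of the types -/
def stp (a b : Fin 4) : Prop := (a = 0 ∧ b = 1) ∨ (a = 1 ∧ b = 2) ∨ (a = 2 ∧ b = 2) ∨ (a = 2 ∧ b = 3)

/-- the label of an inner vertex -/
def mid (q : Lb) : Prop := (q.h = 1 ∨ q.h = 2) ∧ (q.v = 1 ∨ q.v = 2)

/-- on the sheet `s` -/
def ons (s : Bool) (q : Lb) : Prop := mid q → q.f = s

/-- `q'` may be the label of an east neighbour of a vertex with the label `q` -/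
def Ea (q q' : Lb) : Prop :=
  stp q.h q'.h ∧ q'.v = q.v ∧ q'.i = q.i + 1 ∧ q'.j = q.j ∧ (mid q → mid q' → q'.f = q.f)

/-- `q'` may be the label of a north neighbour of a vertex with the label `q` -/
def No (q q' : Lb) : Prop :=
  q'.h = q.h ∧ stp q.v q'.v ∧ q'.i = q.i ∧ q'.j = q.j + 1 ∧ (mid q → mid q' → q'.f = q.f)

/-! ### the rules -/

section
variable {V : Type}

/-- `y` is the east neighbour of `x` on the sheet `s` -/
def Er (G : SimpleGraph V) (lb : V → Lb) (s : Bool) (x y : V) : Prop :=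
  G.Adj x y ∧ ons s (lb x) ∧ ons s (lb y) ∧ Ea (lb x) (lb y)

/-- `y` is the north neighbour of `x` on the sheet `s` -/
def Nr (G : SimpleGraph V) (lb : V → Lb) (s : Bool) (x y : V) : Prop :=
  G.Adj x y ∧ ons s (lb x) ∧ ons s (lb y) ∧ No (lb x) (lb y)

/-- the local rules of the pillowcase -/
structure LR (G : SimpleGraph V) (lb : V → Lb) : Prop where
  adj : ∀ x y, G.Adj x y → Ea (lb x) (lb y) ∨ Ea (lb y) (lb x) ∨ No (lb x) (lb y) ∨ No (lb y) (lb x)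
  ea : ∀ s x, ons s (lb x) → (lb x).h ≠ 3 → ∃! y, Er G lb s x y
  we : ∀ s x, ons s (lb x) → (lb x).h ≠ 0 → ∃! y, Er G lb s y x
  no : ∀ s x, ons s (lb x) → (lb x).v ≠ 3 → ∃! y, Nr G lb s x y
  so : ∀ s x, ons s (lb x) → (lb x).v ≠ 0 → ∃! y, Nr G lb s y x
  cor : ∀ h v : Fin 4, (h = 0 ∨ h = 3) → (v = 0 ∨ v = 3) → ∃! x, (lb x).h = h ∧ (lb x).v = v

/-- the rules of the pillowcase with a tiling of the front sheet -/
structure Rule {Q : Type} (U : Bool → Bool → Bool → Bool → Q → Prop) (Hh Vv : Q → Q → Prop)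
    (G : SimpleGraph V) (lb : V → Lb) (ti : V → Q) : Prop where
  lr : LR G lb
  un : ∀ x, ons true (lb x) → U (decide ((lb x).h = 0)) (decide ((lb x).h = 3))
    (decide ((lb x).v = 0)) (decide ((lb x).v = 3)) (ti x)
  ho : ∀ x y, Er G lb true x y → Hh (ti x) (ti y)
  ve : ∀ x y, Nr G lb true x y → Vv (ti x) (ti y)

/-- in the rotation `σ`, the neighbour `b` of `x` follows the neighbour `a` -/
def Cs (G : SimpleGraph V) (σ : Equiv.Perm G.Dart) (x a b : V) : Prop :=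
  ∃ d : G.Dart, d.fst = x ∧ d.snd = a ∧ (σ d).snd = b

/-- all faces have length four -/
def Quad (G : SimpleGraph V) (σ : Equiv.Perm G.Dart) : Prop :=
  IsRotation G σ ∧ ∀ d, (facePerm G σ ^ 4) d = d

end

/-- the type of the coordinate `x` in a row of length `W` -/
def hty (W x : ℕ) : Fin 4 := if x = 0 then 0 else if x + 1 = W then 3 else if x = 1 then 1 else 2

/-- `g s` is the development of the sheet `s` -/
structure Dev {V : Type} (G : SimpleGraph V) (lb : V → Lb) (W H : ℕ) (g : Bool → ℕ → ℕ → V) :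
    Prop where
  w : 4 ≤ W
  h : 4 ≤ H
  on : ∀ s, ∀ x < W, ∀ y < H, ons s (lb (g s x y))
  ty : ∀ s, ∀ x < W, ∀ y < H, (lb (g s x y)).h = hty W x ∧ (lb (g s x y)).v = hty H y
  ea : ∀ s x y, x + 1 < W → y < H → Er G lb s (g s x y) (g s (x + 1) y)
  no : ∀ s x y, x < W → y + 1 < H → Nr G lb s (g s x y) (g s x (y + 1))
  bd : ∀ x < W, ∀ y < H, (x = 0 ∨ x + 1 = W ∨ y = 0 ∨ y + 1 = H) → g true x y = g false x y
  inj : ∀ s, ∀ x < W, ∀ y < H, ∀ x' < W, ∀ y' < H, g s x y = g s x' y' → x = x' ∧ y = y'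
  sur : ∀ z, ∃ s, ∃ x < W, ∃ y < H, z = g s x y

/-! ### the pillowcase -/

/-- the vertices of the pillowcase: sheet and coordinates; the boundary belongs to the front sheet -/
def PV (W H : ℕ) : Type := {p : Bool × ℕ × ℕ // p.2.1 < W ∧ p.2.2 < H ∧
  (p.1 = false → 0 < p.2.1 ∧ p.2.1 + 1 < W ∧ 0 < p.2.2 ∧ p.2.2 + 1 < H)}

/-- inner vertices -/
def inr {W H : ℕ} (p : PV W H) : Prop :=
  0 < p.1.2.1 ∧ p.1.2.1 + 1 < W ∧ 0 < p.1.2.2 ∧ p.1.2.2 + 1 < H

/-- the pillowcase -/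
def PG (W H : ℕ) : SimpleGraph (PV W H) where
  Adj p q := (((q.1.2.1 = p.1.2.1 + 1 ∨ p.1.2.1 = q.1.2.1 + 1) ∧ p.1.2.2 = q.1.2.2) ∨
    (p.1.2.1 = q.1.2.1 ∧ (q.1.2.2 = p.1.2.2 + 1 ∨ p.1.2.2 = q.1.2.2 + 1))) ∧
    (inr p → inr q → p.1.1 = q.1.1)
  symm := by
    constructor
    rintro p q ⟨h, h'⟩
    refine ⟨?_, fun a b => (h' b a).symm⟩
    omega
  loopless := ⟨by
    rintro p ⟨h, _⟩
    omega⟩

/-- the labels of the pillowcase -/
def plb (W H : ℕ) (p : PV W H) : Lb :=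
  ⟨hty W p.1.2.1, hty H p.1.2.2, p.1.1, (p.1.2.1 : ZMod 6), (p.1.2.2 : ZMod 6)⟩

/-- the distance to the nearest multiple of `2 (W - 1)` -/
def tri (W : ℕ) (u : ℤ) : ℕ :=
  if (u % (2 * ((W : ℤ) - 1))).toNat < W then (u % (2 * ((W : ℤ) - 1))).toNat
  else 2 * (W - 1) - (u % (2 * ((W : ℤ) - 1))).toNat

/-- the two directions of the pillowcase function -/
def sgn (W : ℕ) (u : ℤ) : Bool := decide ((u % (2 * ((W : ℤ) - 1))).toNat < W)

/-- the folding map from the plane to the pillowcase, without the bounds -/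
def fold0 (W H : ℕ) (p : ℤ × ℤ) : Bool × ℕ × ℕ :=
  (decide (tri W p.1 = 0) || decide (tri W p.1 + 1 = W) || decide (tri H p.2 = 0) ||
    decide (tri H p.2 + 1 = H) || (sgn W p.1 == sgn H p.2), tri W p.1, tri H p.2)

/-- the four directions -/
def dir (k : ZMod 4) : ℤ × ℤ :=
  if k = 0 then (1, 0) else if k = 1 then (0, 1) else if k = 2 then (-1, 0) else (0, -1)

/-- congruence of the points of the plane -/
def Cg (W H : ℕ) (p q : ℤ × ℤ) : Prop :=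
  (2 * ((W : ℤ) - 1)) ∣ p.1 - q.1 ∧ (2 * ((H : ℤ) - 1)) ∣ p.2 - q.2

/-! ### certificates of planarity -/

/-- `c` follows `b` around `a` -/
def Nx (n : ℕ) (A : ℕ → ℕ → Prop) (pos : ℕ → ℕ → ℕ) (a b c : ℕ) : Prop :=
  A a b ∧ A a c ∧ (pos a c = pos a b + 1 ∨ (pos a c = 0 ∧ ∀ c' < n, A a c' → pos a c' ≤ pos a b))

/-- certificate: `pos a b` is the place of `b` in the rotation around `a`, `fid a b` the number of the
face of the dart from `a` to `b`, `rt` the roots of the components, `rk` the distance to the root -/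
structure PlC (n : ℕ) (A : ℕ → ℕ → Prop) (pos fid : ℕ → ℕ → ℕ) (rt : ℕ → Prop) (rk : ℕ → ℕ) :
    Prop where
  pi : ∀ a < n, ∀ b < n, ∀ b' < n, A a b → A a b' → pos a b = pos a b' → b = b'
  ps : ∀ a < n, ∀ b < n, A a b → pos a b ≠ 0 → ∃ b' < n, A a b' ∧ pos a b' + 1 = pos a b
  fi : ∀ a < n, ∀ b < n, ∀ c < n, Nx n A pos a b c → fid b a = fid a c
  ro : ∀ a < n, (∃ b < n, A a b) → rt a ∨ ∃ b < n, A a b ∧ rk b < rk a
  co : {p : ℕ × ℕ | p.1 < p.2 ∧ p.2 < n ∧ A p.1 p.2}.ncard +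
      2 * {a | a < n ∧ rt a ∧ ∃ b < n, A a b}.ncard ≤
    {a | a < n ∧ ∃ b < n, A a b}.ncard + {k | ∃ a < n, ∃ b < n, A a b ∧ fid a b = k}.ncard

/-- the graph on `{0, …, n - 1}` with the adjacency relation `A` -/
def gr (n : ℕ) (A : ℕ → ℕ → Prop) (hs : ∀ a b, A a b → A b a) (hi : ∀ a, ¬ A a a) :
    SimpleGraph (Fin n) where
  Adj a b := A a b
  symm := ⟨fun a b h => hs a b h⟩
  loopless := ⟨fun a h => hi a h⟩

/-! ### the axioms -/

/-- the axioms of the pillowcase with a tiling, in a structure on `{0, …, n - 1}` -/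
def AxP {Q : Type} (U : Bool → Bool → Bool → Bool → Q → Prop) (Hh Vv : Q → Q → Prop)
    (enc : Lb × Q → ℕ) (n : ℕ) (P : ℕ → ℕ → Prop) (A : ℕ → ℕ → Prop) : Prop :=
  (∀ a < n, ∃ q, LabAt enc P q a ∧ (ons true q.1 → U (decide (q.1.h = 0)) (decide (q.1.h = 3))
    (decide (q.1.v = 0)) (decide (q.1.v = 3)) q.2)) ∧
  (∀ a < n, ∀ b < n, A a b → ∃ q, ∃ q', (LabAt enc P q a ∧ LabAt enc P q' b) ∧
    (Ea q.1 q'.1 ∨ Ea q'.1 q.1 ∨ No q.1 q'.1 ∨ No q'.1 q.1) ∧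
    (ons true q.1 → ons true q'.1 → Ea q.1 q'.1 → Hh q.2 q'.2) ∧
    (ons true q.1 → ons true q'.1 → No q.1 q'.1 → Vv q.2 q'.2)) ∧
  (∀ s : Bool, ∀ a < n, (∃ q, LabAt enc P q a ∧ ons s q.1 ∧ q.1.h ≠ 3) →
    {b | b < n ∧ A a b ∧ ∃ q, ∃ q', (LabAt enc P q a ∧ LabAt enc P q' b) ∧ ons s q.1 ∧ ons s q'.1 ∧
      Ea q.1 q'.1}.ncard = 1) ∧
  (∀ s : Bool, ∀ a < n, (∃ q, LabAt enc P q a ∧ ons s q.1 ∧ q.1.h ≠ 0) →
    {b | b < n ∧ A a b ∧ ∃ q, ∃ q', (LabAt enc P q a ∧ LabAt enc P q' b) ∧ ons s q.1 ∧ ons s q'.1 ∧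
      Ea q'.1 q.1}.ncard = 1) ∧
  (∀ s : Bool, ∀ a < n, (∃ q, LabAt enc P q a ∧ ons s q.1 ∧ q.1.v ≠ 3) →
    {b | b < n ∧ A a b ∧ ∃ q, ∃ q', (LabAt enc P q a ∧ LabAt enc P q' b) ∧ ons s q.1 ∧ ons s q'.1 ∧
      No q.1 q'.1}.ncard = 1) ∧
  (∀ s : Bool, ∀ a < n, (∃ q, LabAt enc P q a ∧ ons s q.1 ∧ q.1.v ≠ 0) →
    {b | b < n ∧ A a b ∧ ∃ q, ∃ q', (LabAt enc P q a ∧ LabAt enc P q' b) ∧ ons s q.1 ∧ ons s q'.1 ∧
      No q'.1 q.1}.ncard = 1) ∧
  ∀ h v : Fin 4, (h = 0 ∨ h = 3) → (v = 0 ∨ v = 3) →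
    {a | a < n ∧ ∃ q, LabAt enc P q a ∧ q.1.h = h ∧ q.1.v = v}.ncard = 1

end Pool.Agent.H8.PL
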