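import Pool.Agent.H16.TO.Defs

/-!
# Planar graphs and two-variable logic with counting
-/

set_option autoImplicit false

namespace Pool.Agent.H8.PL

open Pool.Agent.H16.TO

/-- `σ` is a rotation system of `G`: a permutation of the darts (directed edges) that keeps the first
vertex and is transitive on the darts with a given first vertex. -/
structure IsRotation {V : Type} (G : SimpleGraph V) (σ : Equiv.Perm G.Dart) : Prop where
  fst : ∀ d : G.Dart, (σ d).fst = d.fst
  cyc : ∀ d d' : G.Dart, d.fst = d'.fst → σ.SameCycle d d'

/-- The permutation `d ↦ σ (reverse of d)`; its cycles are the faces. -/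
def facePerm {V : Type} (G : SimpleGraph V) (σ : Equiv.Perm G.Dart) : Equiv.Perm G.Dart where
  toFun := fun d => σ d.symm
  invFun := fun d => (σ⁻¹ d).symm
  left_inv := fun d => by simp
  right_inv := fun d => by simp

/-- `G` is planar: it has a rotation system with `E + 2 C ≤ V + F`, where `E` is the number of the
edges, `C` the number of the components with an edge, `V` the number of the vertices with a neighbour
and `F` the number of the faces. -/
def IsPlanar {V : Type} (G : SimpleGraph V) : Prop :=
  ∃ σ : Equiv.Perm G.Dart, IsRotation G σ ∧
    Nat.card G.edgeSet +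
      2 * Nat.card {K : G.ConnectedComponent // ∃ d : G.Dart, G.connectedComponentMk d.fst = K} ≤
    Nat.card {v : V // ∃ d : G.Dart, d.fst = v} +
      Nat.card (Quotient (Equiv.Perm.SameCycle.setoid (facePerm G σ)))

/-- The sizes of the finite vertex-coloured planar graphs which satisfy `φ`: the unary relations are
arbitrary, each binary relation symbol means adjacency. -/
def specP (φ : C2) : Set ℕ :=
  {n | 0 < n ∧ ∃ (P : ℕ → Fin n → Prop) (G : SimpleGraph (Fin n)), IsPlanar G ∧
    ∀ s : Bool → Fin n, φ.Sat P (fun _ => G.Adj) s}

end Pool.Agent.H8.PL
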