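import Pool.Agent.H8.PL.Targets
import Mathlib.Combinatorics.SimpleGraph.DegreeSum

/-!
# Euler count, converse
-/

set_option autoImplicit false

namespace Pool.Agent.H8.PL

theorem card_dart {V : Type} [Finite V] (G : SimpleGraph V) :
    Nat.card G.Dart = 2 * Nat.card G.edgeSet := by
  classical
  have := Fintype.ofFinite V
  have : DecidableRel G.Adj := Classical.decRel _
  rw [Nat.card_eq_fintype_card, SimpleGraph.dart_card_eq_twice_card_edges,
    Nat.card_eq_fintype_card, SimpleGraph.edgeFinset_card]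

theorem sameCycle_four {α : Type} (f : Equiv.Perm α) (h4 : ∀ d, (f ^ 4) d = d) {d e : α}
    (h : f.SameCycle d e) : ∃ k < 4, (f ^ k) d = e := by
  obtain ⟨i, hi⟩ := h
  have h4' : f ^ 4 = 1 := Equiv.ext h4
  have h5 : f ^ i = f ^ (i % 4).toNat := by
    have h6 : i = 4 * (i / 4) + ((i % 4).toNat : ℤ) := by
      rw [Int.toNat_of_nonneg (Int.emod_nonneg _ (by norm_num))]
      exact (Int.mul_ediv_add_emod i 4).symm
    conv_lhs => rw [h6]
    rw [zpow_add, zpow_mul]
    have h7 : f ^ (4 : ℤ) = 1 := by
      rw [← h4']; rfl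
    rw [h7, one_zpow, one_mul, zpow_natCast]
  refine ⟨(i % 4).toNat, ?_, ?_⟩
  · have := Int.emod_lt_of_pos i (by norm_num : (0 : ℤ) < 4)
    have := Int.emod_nonneg i (by norm_num : (4 : ℤ) ≠ 0)
    omega
  · rw [← h5]; exact hi

theorem card_le_four {α : Type} [Finite α] (f : Equiv.Perm α) (h4 : ∀ d, (f ^ 4) d = d) :
    Nat.card α ≤ 4 * Nat.card (Quotient (Equiv.Perm.SameCycle.setoid f)) := by
  classical
  have := Fintype.ofFinite α
  have : Fintype (Quotient (Equiv.Perm.SameCycle.setoid f)) := Fintype.ofFinite _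
  rw [Nat.card_eq_fintype_card, Nat.card_eq_fintype_card]
  refine Finset.card_le_mul_card_image_of_maps_to
    (s := Finset.univ) (t := Finset.univ)
    (f := fun d : α => (Quotient.mk (Equiv.Perm.SameCycle.setoid f) d))
    (fun d _ => Finset.mem_univ _) 4 fun q _ => ?_
  induction q using Quotient.ind with
  | _ d0 =>
    have hsub : (Finset.univ.filter fun d : α =>
        (Quotient.mk (Equiv.Perm.SameCycle.setoid f) d) =
          Quotient.mk (Equiv.Perm.SameCycle.setoid f) d0) ⊆
        (Finset.range 4).image fun k => (f ^ k) d0 := by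
      intro d hd
      have h1 : f.SameCycle d d0 := Quotient.exact (Finset.mem_filter.1 hd).2
      obtain ⟨k, hk, hk'⟩ := sameCycle_four f h4 h1.symm
      exact Finset.mem_image.2 ⟨k, Finset.mem_range.2 hk, hk'⟩
    exact (Finset.card_le_card hsub).trans (Finset.card_image_le.trans (by simp))

theorem finite_dart {V : Type} [Finite V] (G : SimpleGraph V) : Finite G.Dart :=
  Finite.of_injective (fun d : G.Dart => d.toProd) SimpleGraph.Dart.toProd_injective

theorem pf_ec : Z_EC := by
  intro V _ G hG hE ⟨σ, hσ, h4⟩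
  have := finite_dart G
  have hd := card_dart G
  have h1 := card_le_four (facePerm G σ) h4
  have hV : 1 < Nat.card V := by omega
  have : Nontrivial V := (Finite.one_lt_card_iff_nontrivial).1 hV
  have hnb : ∀ v : V, ∃ d : G.Dart, d.fst = v := by
    intro v
    obtain ⟨w, hw⟩ := hG.preconnected.exists_adj_of_nontrivial v
    exact ⟨⟨(v, w), hw⟩, rfl⟩
  have hC : Nat.card {K : G.ConnectedComponent //
      ∃ d : G.Dart, G.connectedComponentMk d.fst = K} ≤ 1 := by
    have := hG.preconnected.subsingleton_connectedComponent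
    exact Finite.card_le_one_iff_subsingleton.2 inferInstance
  have hV' : Nat.card {v : V // ∃ d : G.Dart, d.fst = v} = Nat.card V :=
    Nat.card_congr (Equiv.subtypeUnivEquiv hnb)
  refine ⟨σ, hσ, ?_⟩
  rw [hV']
  omega

end Pool.Agent.H8.PL
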