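import Pool.Agent.H8.PL.Targets

/-!
# Certificates of planarity: the counts
-/

set_option autoImplicit false

namespace Pool.Agent.H8.PL

section
variable {n : ℕ} {A : ℕ → ℕ → Prop} {hs : ∀ a b, A a b → A b a} {hi : ∀ a, ¬ A a a}

theorem gr_adj {a b : Fin n} : (gr n A hs hi).Adj a b ↔ A a b := Iff.rfl

theorem ncard_edges :
    {p : ℕ × ℕ | p.1 < p.2 ∧ p.2 < n ∧ A p.1 p.2}.ncard = Nat.card (gr n A hs hi).edgeSet := by
  have key : Function.Bijective (fun p : {p : ℕ × ℕ | p.1 < p.2 ∧ p.2 < n ∧ A p.1 p.2} =>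
      (⟨s((⟨p.1.1, p.2.1.trans p.2.2.1⟩ : Fin n), (⟨p.1.2, p.2.2.1⟩ : Fin n)),
        (show (gr n A hs hi).Adj _ _ from p.2.2.2)⟩ : (gr n A hs hi).edgeSet)) := by
    constructor
    · rintro ⟨⟨a, b⟩, h1, h2, h3⟩ ⟨⟨a', b'⟩, h1', h2', h3'⟩ h
      have h4 := congrArg Subtype.val h
      simp only [Sym2.eq_iff, Fin.mk.injEq] at h4
      dsimp only at h1 h1'
      rcases h4 with ⟨rfl, rfl⟩ | ⟨rfl, rfl⟩
      · rfl
      · omega
    · rintro ⟨e, he⟩
      induction e using Sym2.ind with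
      | _ a b =>
        have hab : A a b := he
        rcases Nat.lt_trichotomy a.1 b.1 with h | h | h
        · exact ⟨⟨(a.1, b.1), h, b.2, hab⟩, rfl⟩
        · exact absurd (h ▸ hab) (hi _)
        · refine ⟨⟨(b.1, a.1), h, a.2, hs _ _ hab⟩, Subtype.ext Sym2.eq_swap⟩
  exact Nat.card_congr (Equiv.ofBijective _ key)

theorem ncard_verts :
    {a | a < n ∧ ∃ b < n, A a b}.ncard =
      Nat.card {v : Fin n // ∃ d : (gr n A hs hi).Dart, d.fst = v} := by
  have key : Function.Bijective (fun p : {a | a < n ∧ ∃ b < n, A a b} =>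
      (⟨⟨p.1, p.2.1⟩, by
        obtain ⟨b, hb, hab⟩ := p.2.2
        exact ⟨⟨(⟨p.1, p.2.1⟩, ⟨b, hb⟩), hab⟩, rfl⟩⟩ :
        {v : Fin n // ∃ d : (gr n A hs hi).Dart, d.fst = v})) := by
    constructor
    · rintro ⟨a, h⟩ ⟨a', h'⟩ e
      have h4 := congrArg (fun x => x.1.1) e
      exact Subtype.ext h4
    · rintro ⟨v, d, rfl⟩
      exact ⟨⟨d.fst.1, d.fst.2, d.snd.1, d.snd.2, d.adj⟩, rfl⟩
  exact Nat.card_congr (Equiv.ofBijective _ key)

theorem finite_dart' : Finite (gr n A hs hi).Dart :=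
  Finite.of_injective (fun d : (gr n A hs hi).Dart => d.toProd) SimpleGraph.Dart.toProd_injective

end

end Pool.Agent.H8.PL
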